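import Pool.Agent.H46.TNH.Trap

/-!
# A homotopy principle for arrays with a zero corner at the bottom

If the full size minors `W(n)` (rows `n, ..., n + N`, columns `0, ..., N`) do not vanish on a
connected parameter space and all initial minors are positive at one point, then they are
positive everywhere.
-/

set_option autoImplicit false

namespace Pool.Agent.H46.TNH

open Matrix Pool.Agent.H37.TPC

/-- the Schur complement of the corner entry -/
noncomputable def sch (a : ℕ → ℕ → ℝ) (i j : ℕ) : ℝ :=
  a (i + 1) (j + 1) - a (i + 1) 0 / a 0 0 * a 0 (j + 1)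

theorem sch_mnr (a : ℕ → ℕ → ℝ) (h : a 0 0 ≠ 0) {K : ℕ} (f g : Fin K → ℕ) :
    mnr a (Fin.cases 0 (fun i => f i + 1) : Fin (K + 1) → ℕ)
      (Fin.cases 0 (fun j => g j + 1) : Fin (K + 1) → ℕ) = a 0 0 * mnr (sch a) f g := by
  set G : Fin (K + 1) → ℕ := Fin.cases 0 (fun j => g j + 1) with hG
  set A : Matrix (Fin (K + 1)) (Fin (K + 1)) ℝ :=
    Matrix.of fun i j => a ((Fin.cases 0 (fun i => f i + 1) : Fin (K + 1) → ℕ) i) (G j) with hA
  set c : Fin (K + 1) → ℝ := Fin.cases 0 (fun i : Fin K => a (f i + 1) 0 / a 0 0) with hc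
  set B : Matrix (Fin (K + 1)) (Fin (K + 1)) ℝ :=
    Matrix.of fun i j => Fin.cases (a 0 (G j)) (fun i' : Fin K =>
      a (f i' + 1) (G j) - a (f i' + 1) 0 / a 0 0 * a 0 (G j)) i with hB
  have h1 : A.det = B.det := by
    apply Matrix.det_eq_of_forall_row_eq_smul_add_const c 0
    · simp [hc]
    · intro i j
      refine Fin.cases ?_ (fun i' => ?_) i
      · simp [hA, hB, hc]
      · simp [hA, hB, hc]
  have h2 : B.det = a 0 0 * mnr (sch a) f g := by
    rw [Matrix.det_succ_column_zero, Fin.sum_univ_succ]
    have h3 : ∀ i : Fin K, B i.succ 0 = 0 := by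
      intro i
      simp only [hB, hG, Matrix.of_apply, Fin.cases_succ, Fin.cases_zero]
      rw [div_mul_cancel₀ _ h]
      exact sub_self _
    have h4 : B 0 0 = a 0 0 := by simp [hB, hG]
    simp only [h3, h4, mul_zero, zero_mul, Finset.sum_const_zero, add_zero, Fin.val_zero,
      pow_zero, one_mul]
    rfl
  rw [← h2, ← h1]
  rfl

theorem ini_sch (a : ℕ → ℕ → ℝ) (h : a 0 0 ≠ 0) (K : ℕ) :
    ini a (K + 1) 0 = a 0 0 * ini (sch a) K 0 := by
  have h1 := sch_mnr a h (fun i : Fin K => (i : ℕ)) (fun i : Fin K => (i : ℕ))
  have h2 : mnr a (Fin.cases 0 (fun i : Fin K => (i : ℕ) + 1) : Fin (K + 1) → ℕ)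
      (Fin.cases 0 (fun j : Fin K => (j : ℕ) + 1) : Fin (K + 1) → ℕ) = ini a (K + 1) 0 := by
    unfold mnr ini
    congr 1
    ext i j
    simp only [Matrix.of_apply]
    congr 1
    · refine Fin.cases ?_ (fun i' => ?_) i
      · simp
      · simp
    · refine Fin.cases ?_ (fun i' => ?_) j
      · simp
      · simp
  have h3 : mnr (sch a) (fun i : Fin K => (i : ℕ)) (fun i : Fin K => (i : ℕ))
      = ini (sch a) K 0 := by
    unfold mnr ini
    simp
  rw [← h2, h1, h3]

/-- all minors of the square block with rows and columns `0, ..., L - 1` are nonnegative -/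
def TNb (L : ℕ) (a : ℕ → ℕ → ℝ) : Prop :=
  ∀ (K : ℕ) (f g : Fin K → ℕ), StrictMono f → StrictMono g → (∀ j, f j < L) → (∀ j, g j < L) →
    0 ≤ mnr a f g

theorem strictMono_cases {K : ℕ} {f : Fin K → ℕ} (hf : StrictMono f) :
    StrictMono (Fin.cases 0 (fun i => f i + 1) : Fin (K + 1) → ℕ) := by
  intro i j hij
  rcases Fin.eq_zero_or_eq_succ i with rfl | ⟨i', rfl⟩
  · rcases Fin.eq_zero_or_eq_succ j with rfl | ⟨j', rfl⟩
    · exact absurd hij (lt_irrefl _)
    · simp
  · rcases Fin.eq_zero_or_eq_succ j with rfl | ⟨j', rfl⟩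
    · exact absurd hij (by simp)
    · have : i' < j' := Fin.succ_lt_succ_iff.mp hij
      have := hf this
      simp only [Fin.cases_succ]
      omega

/-- a nonsingular totally nonnegative matrix has positive leading principal minors -/
theorem lead_pos (L : ℕ) : ∀ a : ℕ → ℕ → ℝ, TNb L a → ini a L 0 ≠ 0 →
    ∀ K, K ≤ L → 0 < ini a K 0 := by
  induction L with
  | zero =>
    intro a _ _ K hK
    have : K = 0 := by omega
    subst this
    simp [ini]
  | succ L ih =>
    intro a ha hdet K hK
    have hnn : ∀ i j, i < L + 1 → j < L + 1 → 0 ≤ a i j := by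
      intro i j hi hj
      have := ha 1 (fun _ => i) (fun _ => j) (fun x y h => by omega) (fun x y h => by omega)
        (fun _ => hi) (fun _ => hj)
      simpa [mnr] using this
    have h00 : a 0 0 ≠ 0 := by
      intro h0
      have hcol : ∃ i, i < L + 1 ∧ a i 0 ≠ 0 := by
        by_contra hcon
        push Not at hcon
        apply hdet
        unfold ini
        apply Matrix.det_eq_zero_of_column_eq_zero 0
        intro i
        simp only [Matrix.of_apply]
        exact hcon _ (by have := i.2; omega)
      have hrow : ∃ j, j < L + 1 ∧ a 0 j ≠ 0 := by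
        by_contra hcon
        push Not at hcon
        apply hdet
        unfold ini
        apply Matrix.det_eq_zero_of_row_eq_zero 0
        intro j
        simp only [Matrix.of_apply]
        exact hcon _ j.2
      obtain ⟨i, hi, hi0⟩ := hcol
      obtain ⟨j, hj, hj0⟩ := hrow
      have hip : 0 < i := Nat.pos_of_ne_zero (fun h => hi0 (by rw [h]; exact h0))
      have hjp : 0 < j := Nat.pos_of_ne_zero (fun h => hj0 (by rw [h]; exact h0))
      have h2 := ha 2 ![0, i] ![0, j]
        (by
          intro x y hxy
          fin_cases x <;> fin_cases y <;> simp_all)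
        (by
          intro x y hxy
          fin_cases x <;> fin_cases y <;> simp_all)
        (by intro x; fin_cases x <;> simp; omega)
        (by intro x; fin_cases x <;> simp; omega)
      have h3 : mnr a ![0, i] ![0, j] = a 0 0 * a i j - a 0 j * a i 0 := by
        unfold mnr
        rw [Matrix.det_fin_two]
        simp
      rw [h3, h0] at h2
      have h4 : 0 < a i 0 := lt_of_le_of_ne (hnn i 0 hi (by omega)) (Ne.symm hi0)
      have h5 : 0 < a 0 j := lt_of_le_of_ne (hnn 0 j (by omega) hj) (Ne.symm hj0)
      have := mul_pos h5 h4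
      linarith
    have h00p : 0 < a 0 0 := lt_of_le_of_ne (hnn 0 0 (by omega) (by omega)) (Ne.symm h00)
    rcases K with _ | K
    · simp [ini]
    · rw [ini_sch a h00]
      apply mul_pos h00p
      apply ih (sch a) _ _ K (by omega)
      · intro M f g hf hg hfL hgL
        have h1 := ha (M + 1) _ _ (strictMono_cases hf) (strictMono_cases hg)
          (by
            intro x
            rcases Fin.eq_zero_or_eq_succ x with rfl | ⟨x', rfl⟩
            · simp
            · have := hfL x'
              simp only [Fin.cases_succ]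
              omega)
          (by
            intro x
            rcases Fin.eq_zero_or_eq_succ x with rfl | ⟨x', rfl⟩
            · simp
            · have := hgL x'
              simp only [Fin.cases_succ]
              omega)
        rw [sch_mnr a h00] at h1
        exact (mul_nonneg_iff_of_pos_left h00p).mp h1
      · intro h1
        apply hdet
        rw [ini_sch a h00, h1, mul_zero]

theorem mnr_cont {X : Type*} [TopologicalSpace X] (a : X → ℕ → ℕ → ℝ)
    (hc : ∀ i j, Continuous fun s => a s i j) {K : ℕ} (f g : Fin K → ℕ) :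
    Continuous fun s => mnr (a s) f g := by
  unfold mnr
  apply Continuous.matrix_det
  apply continuous_matrix
  intro i j
  exact hc _ _

theorem ini_cont {X : Type*} [TopologicalSpace X] (a : X → ℕ → ℕ → ℝ)
    (hc : ∀ i j, Continuous fun s => a s i j) (K n : ℕ) :
    Continuous fun s => ini (a s) K n := by
  unfold ini
  apply Continuous.matrix_det
  apply continuous_matrix
  intro i j
  exact hc _ _

/-- **The homotopy principle.** -/
theorem tnh {X : Type*} [TopologicalSpace X] [PreconnectedSpace X] (N : ℕ)
    (a : X → ℕ → ℕ → ℝ) (hc : ∀ i j, Continuous fun s => a s i j)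
    (htr : ∀ s, Trap N (a s)) (hW : ∀ s n, n ≤ N → ini (a s) (N + 1) n ≠ 0)
    (x0 : X) (h0 : ∀ K n, K ≤ N + 1 → n ≤ N → 0 < ini (a x0) K n) :
    ∀ s K n, K ≤ N + 1 → n ≤ N → 0 < ini (a s) K n := by
  set Good : Set X := {s | ∀ K n, K ≤ N + 1 → n ≤ N → 0 < ini (a s) K n} with hGood
  set T : Set X := {s | ∀ (K : ℕ) (f g : Fin K → ℕ), StrictMono f → StrictMono g →
    (∀ j, g j < N + 1) → 0 ≤ mnr (a s) f g} with hT
  have hGT : Good = T := by
    apply Set.Subset.antisymm
    · intro s hs K f g hf hg hgN
      exact trap_aux N (N + 1) (a s) (htr s) hs K f g hf hg hgN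
    · intro s hs K n hK hn
      have h1 : ∀ M, ini (fun i j => a s (n + i) j) M 0 = ini (a s) M n := by
        intro M
        unfold ini
        simp
      rw [← h1]
      apply lead_pos (N + 1) _ _ _ K hK
      · intro M f g hf hg _ hgL
        exact hs M (fun i => n + f i) g (fun i j hij => by
          have := hf hij
          show n + f i < n + f j
          omega) hg hgL
      · rw [h1]; exact hW s n hn
  have hopen : IsOpen Good := by
    have : Good = ⋂ p ∈ (Finset.range (N + 2) ×ˢ Finset.range (N + 1) : Finset (ℕ × ℕ)),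
        {s | 0 < ini (a s) p.1 p.2} := by
      ext s
      simp only [hGood, Set.mem_ofPred_eq, Set.mem_iInter, Finset.mem_product, Finset.mem_range]
      constructor
      · intro h p hp
        exact h p.1 p.2 (by omega) (by omega)
      · intro h K n hK hn
        exact h (K, n) (by constructor <;> simp <;> omega)
    rw [this]
    apply isOpen_biInter_finset
    intro p _
    exact isOpen_lt continuous_const (ini_cont a hc _ _)
  have hclosed : IsClosed T := by
    simp only [hT, Set.ofPred_forall]
    refine isClosed_iInter fun K => isClosed_iInter fun f => isClosed_iInter fun g =>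
      isClosed_iInter fun _ => isClosed_iInter fun _ => isClosed_iInter fun _ => ?_
    exact isClosed_le continuous_const (mnr_cont a hc _ _)
  have hclopen : IsClopen Good := ⟨hGT ▸ hclosed, hopen⟩
  have huniv := hclopen.eq_univ ⟨x0, h0⟩
  intro s
  have : s ∈ Good := huniv ▸ Set.mem_univ s
  exact this

end Pool.Agent.H46.TNH
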