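import Pool.Agent.H37.TPC.Cryer

/-!
# Arrays with a zero corner at the bottom: Cryer's criterion and a homotopy principle

The rows `0, ..., N` are positive in the first column, the row `N + j` starts at the column `j`.
If all initial minors with first row at most `N` are positive, then all minors are nonnegative.
-/

set_option autoImplicit false

namespace Pool.Agent.H46.TNH

open Matrix Pool.Agent.H37.TPC

theorem ini_step' (a : ℕ → ℕ → ℝ) (h : ∀ n, a n 0 = 0 → a (n + 1) 0 = 0) (K n : ℕ) :
    ini a (K + 1) n = a n 0 * ini (nev a) K n := by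
  set A : Matrix (Fin (K + 1)) (Fin (K + 1)) ℝ := Matrix.of fun i j => a (n + i) j with hA
  set c : Fin K → ℝ := fun i => a (n + i + 1) 0 / a (n + i) 0 with hc
  set B : Matrix (Fin (K + 1)) (Fin (K + 1)) ℝ :=
    Matrix.of fun i j => Fin.cases (a n j) (fun i' : Fin K =>
      a (n + i' + 1) j - c i' * a (n + i') j) i with hB
  have h1 : A.det = B.det := by
    apply Matrix.det_eq_of_forall_row_eq_smul_add_pred c
    · intro j
      simp [hA, hB]
    · intro i j
      simp [hA, hB, ← add_assoc]
  have h2 : B.det = a n 0 * ini (nev a) K n := by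
    rw [Matrix.det_succ_column_zero, Fin.sum_univ_succ]
    have h3 : ∀ i : Fin K, B i.succ 0 = 0 := by
      intro i
      simp only [hB, hc, Matrix.of_apply, Fin.cases_succ, Fin.val_zero]
      by_cases h0 : a (n + i) 0 = 0
      · rw [h0, h _ h0]; simp
      · rw [div_mul_cancel₀ _ h0]
        exact sub_self _
    have h4 : B 0 0 = a n 0 := by simp [hB]
    simp only [h3, h4, mul_zero, zero_mul, Finset.sum_const_zero, add_zero, Fin.val_zero,
      pow_zero, one_mul]
    rfl
  unfold ini
  rw [← hA, h1, h2]
  rfl

theorem row_succ' (a : ℕ → ℕ → ℝ) (h : ∀ n, a n 0 = 0 → a (n + 1) 0 = 0) (q k : ℕ) :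
    a (q + 1) k = a (q + 1) 0 / a q 0 * a q k + br a (q + 1) k := by
  rcases k with _ | k
  · by_cases h0 : a q 0 = 0
    · rw [h0, h _ h0]; simp [br]
    · simp only [br]; field_simp; ring
  · simp only [br, nev]; ring

theorem stage_succ' (a : ℕ → ℕ → ℝ) (h : ∀ n, 0 ≤ a n 0)
    (hz : ∀ n, a n 0 = 0 → a (n + 1) 0 = 0) {K : ℕ} (g : Fin K → ℕ) (t : ℕ)
    (ht : t < K) (hS : Stage a g t) : Stage a g (t + 1) := by
  intro f s hf hs hfs
  set i0 : Fin K := ⟨t, ht⟩ with hi0
  -- the rows other than `t`
  set M : Matrix (Fin K) (Fin K) ℝ :=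
    Matrix.of fun i j : Fin K => if (i : ℕ) < t + 1 then a (f i) (g j) else br a (s i) (g j)
    with hM
  set D : (Fin K → ℝ) → ℝ := fun v => (M.updateRow i0 v).det with hD
  have hgoal : mix a g (t + 1) f s = D (fun j => a (f i0) (g j)) := by
    have : M.updateRow i0 (fun j => a (f i0) (g j)) = M := by
      ext i j
      by_cases hij : i = i0
      · subst hij; simp [hM, Matrix.updateRow_self, hi0]
      · simp [Matrix.updateRow_ne hij]
    simp only [hD, this]
    rfl
  -- value with a row `br (q)`, by the previous stage
  have hbr : ∀ q, q ≤ f i0 → (∀ i : Fin K, (i : ℕ) < t → f i < q) →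
      0 ≤ D (fun j => br a q (g j)) := by
    intro q hq hq'
    have h1 : D (fun j => br a q (g j)) = mix a g t f (Function.update s i0 q) := by
      simp only [hD, mix]
      congr 1
      ext i j
      by_cases hij : i = i0
      · subst hij; simp [Matrix.updateRow_self, hi0]
      · have hne : (i : ℕ) ≠ t := fun hh => hij (Fin.ext hh)
        rw [Matrix.updateRow_ne hij]
        simp only [hM, Matrix.of_apply, Function.update_of_ne hij]
        by_cases hlt : (i : ℕ) < t
        · rw [if_pos hlt, if_pos (by omega)]
        · rw [if_neg hlt, if_neg (by omega)]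
    rw [h1]
    apply hS f _ hf
    · intro i j hi hij
      by_cases hii : i = i0
      · subst hii
        have hj : j ≠ i0 := ne_of_gt hij
        rw [Function.update_self, Function.update_of_ne hj]
        have hlt : t < (j : ℕ) := Fin.lt_def.mp hij
        have := hfs i0 j (by simp [hi0]) (by omega)
        omega
      · have hj : j ≠ i0 := by
          intro hh; subst hh
          have : (i : ℕ) < t := Fin.lt_def.mp hij
          omega
        rw [Function.update_of_ne hii, Function.update_of_ne hj]
        have : (i : ℕ) ≠ t := fun hh => hii (Fin.ext hh)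
        exact hs i j (by omega) hij
    · intro i j hi hj
      by_cases hjj : j = i0
      · subst hjj; rw [Function.update_self]; exact hq' i hi
      · rw [Function.update_of_ne hjj]
        have : (j : ℕ) ≠ t := fun hh => hjj (Fin.ext hh)
        have h2 := hfs i0 j (by simp [hi0]) (by omega)
        have h3 : f i < f i0 := hf (by simpa [hi0, Fin.lt_def] using hi)
        omega
  have hlin : ∀ q, D (fun j => a (q + 1) (g j)) =
      a (q + 1) 0 / a q 0 * D (fun j => a q (g j)) + D (fun j => br a (q + 1) (g j)) := by
    intro q
    have : (fun j => a (q + 1) (g j)) =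
        (a (q + 1) 0 / a q 0) • (fun j => a q (g j)) + (fun j => br a (q + 1) (g j)) := by
      ext j
      simp only [Pi.add_apply, Pi.smul_apply, smul_eq_mul]
      exact row_succ' a hz q (g j)
    simp only [hD]
    rw [this, Matrix.det_updateRow_add, Matrix.det_updateRow_smul]
  rw [hgoal]
  -- the first row is special
  rcases Nat.eq_zero_or_pos t with ht0 | htp
  · have key : ∀ q, q ≤ f i0 → 0 ≤ D (fun j => a q (g j)) := by
      intro q
      induction q with
      | zero =>
        intro _
        have := hbr 0 (Nat.zero_le _) (fun i hi => by omega)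
        simpa [br] using this
      | succ q ih =>
        intro hq
        rw [hlin]
        have h1 := ih (by omega)
        have h2 := hbr (q + 1) hq (fun i hi => by omega)
        have h3 : 0 ≤ a (q + 1) 0 / a q 0 := div_nonneg (h _) (h _)
        positivity
    exact key _ le_rfl
  · set i1 : Fin K := ⟨t - 1, by omega⟩ with hi1
    have hne : i1 ≠ i0 := by
      intro hh
      have := congrArg Fin.val hh
      simp only [hi1, hi0] at this
      omega
    have hlt : i1 < i0 := by
      rw [Fin.lt_def]; simp only [hi1, hi0]; omega
    have key : ∀ q, f i1 ≤ q → q ≤ f i0 → 0 ≤ D (fun j => a q (g j)) := by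
      intro q hq
      induction q, hq using Nat.le_induction with
      | base =>
        intro _
        apply le_of_eq
        symm
        simp only [hD]
        apply Matrix.det_zero_of_row_eq hne
        ext j
        rw [Matrix.updateRow_self, Matrix.updateRow_ne hne]
        simp only [hM, Matrix.of_apply]
        rw [if_pos (by simp only [hi1]; omega)]
      | succ q hq ih =>
        intro hq2
        rw [hlin]
        have h1 := ih (by omega)
        have h2 := hbr (q + 1) hq2 (fun i hi => by
          have : f i ≤ f i1 := hf.monotone (by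
            rw [Fin.le_def]; simp only [hi1]; omega)
          omega)
        have h3 : 0 ≤ a (q + 1) 0 / a q 0 := div_nonneg (h _) (h _)
        positivity
    exact key _ (hf hlt).le le_rfl

theorem stage_all' (a : ℕ → ℕ → ℝ) (h : ∀ n, 0 ≤ a n 0)
    (hz : ∀ n, a n 0 = 0 → a (n + 1) 0 = 0) {K : ℕ} (g : Fin K → ℕ)
    (h0 : Stage a g 0) : ∀ t, t ≤ K → Stage a g t := by
  intro t
  induction t with
  | zero => intro _; exact h0
  | succ t ih => intro ht; exact stage_succ' a h hz g t (by omega) (ih (by omega))

/-- stage zero from the minors of the reduced array -/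
theorem stage_zero' (a : ℕ → ℕ → ℝ) (h : ∀ n, 0 ≤ a n 0) (htri : ∀ n k, n < k → a n k = 0)
    {K : ℕ} (g : Fin K → ℕ) (hg : StrictMono g) (C : ℕ) (hgC : ∀ j, g j < C + 1)
    (hb : ∀ (K : ℕ) (f g : Fin K → ℕ), StrictMono f → StrictMono g → (∀ j, g j < C) →
      0 ≤ mnr (nev a) f g) : Stage a g 0 := by
  intro f s _ hs _
  have hsm : StrictMono s := fun i j hij => hs i j (Nat.zero_le _) hij
  have hmix : mix a g 0 f s = (Matrix.of fun i j : Fin K => br a (s i) (g j)).det := by
    unfold mix; simp
  rw [hmix]
  rcases K with _ | K
  · simp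
  · have hbr1 : ∀ i j, 0 < i → 0 < j → br a i j = nev a (i - 1) (j - 1) := by
      intro i j hi hj
      obtain ⟨i', rfl⟩ := Nat.exists_eq_succ_of_ne_zero hi.ne'
      obtain ⟨j', rfl⟩ := Nat.exists_eq_succ_of_ne_zero hj.ne'
      rfl
    by_cases hg0 : g 0 = 0
    · rw [Matrix.det_succ_column_zero, Fin.sum_univ_succ]
      have hpos : ∀ i : Fin K, 0 < s i.succ := fun i =>
        lt_of_le_of_lt (Nat.zero_le _) (hsm (Fin.succ_pos i))
      have hgpos : ∀ i : Fin K, 0 < g i.succ := fun i =>
        lt_of_le_of_lt (Nat.zero_le _) (hg (Fin.succ_pos i))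
      have hz : ∀ i : Fin K, br a (s i.succ) (g 0) = 0 := by
        intro i
        obtain ⟨m, hm⟩ := Nat.exists_eq_succ_of_ne_zero (hpos i).ne'
        rw [hg0, hm]; rfl
      simp only [Matrix.of_apply, hz, mul_zero, zero_mul, Finset.sum_const_zero, add_zero,
        Fin.val_zero, pow_zero, one_mul]
      apply mul_nonneg
      · rw [hg0]
        rcases Nat.eq_zero_or_pos (s 0) with h0 | h0
        · rw [h0]; exact h 0
        · obtain ⟨m, hm⟩ := Nat.exists_eq_succ_of_ne_zero h0.ne'
          rw [hm]; exact le_rfl
      · have := hb K (fun i => s i.succ - 1) (fun i => g i.succ - 1)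
          (fun i j hij => by
            have h1 : s i.succ < s j.succ := hsm (Fin.succ_lt_succ_iff.mpr hij)
            have := hpos i
            show s i.succ - 1 < s j.succ - 1
            omega)
          (fun i j hij => by
            have h1 : g i.succ < g j.succ := hg (Fin.succ_lt_succ_iff.mpr hij)
            have := hgpos i
            show g i.succ - 1 < g j.succ - 1
            omega)
          (fun j => by
            have h1 := hgC j.succ
            have h2 := hgpos j
            show g j.succ - 1 < C
            omega)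
        refine le_of_le_of_eq this ?_
        unfold mnr
        congr 1
        ext i j
        simp only [Matrix.submatrix_apply, Matrix.of_apply, Fin.succAbove_zero]
        exact (hbr1 _ _ (hpos i) (hgpos j)).symm
    · have hgpos : ∀ j, 0 < g j := fun j =>
        lt_of_lt_of_le (Nat.pos_of_ne_zero hg0) (hg.monotone (Fin.zero_le j))
      rcases Nat.eq_zero_or_pos (s 0) with h0 | h0
      · apply le_of_eq
        symm
        apply Matrix.det_eq_zero_of_row_eq_zero 0
        intro j
        simp only [Matrix.of_apply, h0, br]
        exact htri _ _ (hgpos j)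
      · have hpos : ∀ j, 0 < s j := fun j =>
          lt_of_lt_of_le h0 (hsm.monotone (Fin.zero_le j))
        have := hb (K + 1) (fun i => s i - 1) (fun i => g i - 1)
          (fun i j hij => by
            have h1 := hsm hij
            have := hpos i
            show s i - 1 < s j - 1
            omega)
          (fun i j hij => by
            have h1 := hg hij
            have := hgpos i
            show g i - 1 < g j - 1
            omega)
          (fun j => by
            have h1 := hgC j
            have h2 := hgpos j
            show g j - 1 < C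
            omega)
        refine le_of_le_of_eq this ?_
        unfold mnr
        congr 1
        ext i j
        simp only [Matrix.of_apply]
        exact (hbr1 _ _ (hpos i) (hgpos j)).symm


/-- trapezoid shape: lower triangular, and the row `N + j` starts at the column `j` -/
def Trap (N : ℕ) (a : ℕ → ℕ → ℝ) : Prop :=
  (∀ n k, n < k → a n k = 0) ∧ (∀ j k, k < j → a (N + j) k = 0)

theorem trap_zero {N : ℕ} {a : ℕ → ℕ → ℝ} (h : Trap N a) (hp : ∀ n, n ≤ N → 0 < a n 0) :
    (∀ n, 0 ≤ a n 0) ∧ (∀ n, a n 0 = 0 → a (n + 1) 0 = 0) := by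
  have h1 : ∀ n, N < n → a n 0 = 0 := by
    intro n hn
    obtain ⟨j, rfl⟩ := Nat.exists_eq_add_of_lt hn
    exact h.2 (j + 1) 0 (by omega)
  constructor
  · intro n
    by_cases hn : n ≤ N
    · exact (hp n hn).le
    · rw [h1 n (by omega)]
  · intro n hn
    by_cases hn' : n ≤ N
    · exact absurd hn (hp n hn').ne'
    · exact h1 _ (by omega)

theorem trap_nev {N : ℕ} {a : ℕ → ℕ → ℝ} (h : Trap N a) : Trap N (nev a) := by
  constructor
  · intro n k hnk
    unfold nev
    rw [h.1 (n + 1) (k + 1) (by omega), h.1 n (k + 1) (by omega)]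
    ring
  · intro j k hkj
    unfold nev
    have h1 : a (N + j + 1) (k + 1) = 0 := h.2 (j + 1) (k + 1) (by omega)
    have h2 : a (N + j + 1) 0 = 0 := h.2 (j + 1) 0 (by omega)
    rw [h1, h2]
    simp

theorem trap_aux (N C : ℕ) : ∀ a : ℕ → ℕ → ℝ, Trap N a →
    (∀ K n, K ≤ C → n ≤ N → 0 < ini a K n) →
    ∀ (K : ℕ) (f g : Fin K → ℕ), StrictMono f → StrictMono g → (∀ j, g j < C) →
      0 ≤ mnr a f g := by
  induction C with
  | zero =>
    intro a _ _ K f g _ _ hC
    rcases K with _ | K
    · simp [mnr]
    · exact absurd (hC 0) (by omega)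
  | succ C ih =>
    intro a htri hini K f g hf hg hC
    have h : ∀ n, n ≤ N → 0 < a n 0 := by
      intro n hn
      have := hini 1 n (by omega) hn
      simpa [ini] using this
    obtain ⟨h0, hz⟩ := trap_zero htri h
    have hb := ih (nev a) (trap_nev htri)
      (fun K n hK hn => by
        have h1 := hini (K + 1) n (by omega) hn
        rw [ini_step' a hz] at h1
        exact (mul_pos_iff_of_pos_left (h n hn)).mp h1)
    exact mnr_of_stage a f g hf
      (stage_all' a h0 hz g (stage_zero' a h0 htri.1 g hg C hC hb) K le_rfl)

end Pool.Agent.H46.TNH
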